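import Pool.Agent.K3h26.R6.Stm

/-!
Brick MASS of project R6 (helper17 for helper26), after Pool/Agent/K3h27/R5/Mass.lean: the weights
have sum one.
-/

set_option autoImplicit false

open MeasureTheory Filter Topology Set
open scoped ENNReal

namespace Pool.Agent.K3h17.R6

open Pool.Agent.K3h26.R6

variable {p : ℕ}

lemma len_aux (x : ℝ) : min (1 / 2 : ℝ) (x + 1 / 2) - max (-(1 / 2)) (x - 1 / 2) = 1 - |x| := by
  rcases le_total 0 x with h | h
  · rw [abs_of_nonneg h, min_eq_left (by linarith), max_eq_right (by linarith)]; ring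
  · rw [abs_of_nonpos h, min_eq_right (by linarith), max_eq_left (by linarith)]; ring

/-- the half-open cube around the last coordinates of `v` -/
def Sq (v : Fin (p + 5) → ℝ) : Set (Fin (p + 2) → ℝ) :=
  Set.pi univ fun l => Ico (yy v l - 1 / 2) (yy v l + 1 / 2)

/-- the unit cube -/
def Q (p : ℕ) : Set (Fin (p + 2) → ℝ) := Set.pi univ fun _ => Ico (-(1 / 2)) (1 / 2)

lemma vol_Q : volume (Q p) = 1 := by
  unfold Q
  rw [volume_pi_pi]
  simp only [Real.volume_Ico]
  norm_num

lemma vol_inter {v : Fin (p + 5) → ℝ} (h : ∀ l, |yy v l| < 1) :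
    volume (Q p ∩ Sq v) = ENNReal.ofReal (mu v) := by
  unfold Q Sq mu
  rw [← Set.pi_inter_distrib, volume_pi_pi, ENNReal.ofReal_prod_of_nonneg fun l _ => by
    linarith [h l]]
  refine Finset.prod_congr rfl fun l _ => ?_
  rw [Set.Ico_inter_Ico, Real.volume_Ico]
  congr 1
  exact len_aux (yy v l)

theorem t_MASS (hSL : S_SL) : Pool.Agent.K3h26.R6.S_MASS := by
  intro p L hL i j k
  obtain ⟨-, hsl2⟩ := hSL p L hL
  set W := WW L (2 * i + k) (2 * j + k) k with hW
  have hsep : ∀ v ∈ W, ∀ v' ∈ W, (∀ l, |yy v l - yy v' l| < 1) → v = v' := by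
    intro v hv v' hv' h3
    by_contra hne
    have h := hL.1 (v - v') (L.sub_mem hv.1 hv'.1) (sub_ne_zero.2 hne)
    have e0 : (v - v') 0 = 0 := by rw [Pi.sub_apply, hv.2.2.1, hv'.2.2.1, sub_self]
    have e1 : (v - v') 1 = 0 := by rw [Pi.sub_apply, hv.2.2.2.1, hv'.2.2.2.1, sub_self]
    have e2 : (v - v') 2 = 0 := by rw [Pi.sub_apply, hv.2.2.2.2, hv'.2.2.2.2, sub_self]
    rcases h with h | h | h
    · unfold n1 at h
      rw [e0, e1, e2] at h
      norm_num at h
    · unfold ni at h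
      rw [e0, e1, e2] at h
      norm_num at h
    · refine absurd h (not_le.2 ?_)
      unfold nq
      rw [pi_norm_lt_iff one_pos]
      exact h3
  have hlt : ∀ v ∈ W, ∀ l, |yy v l| < 1 := fun v hv => by
    have h := hv.2.1
    unfold nq at h
    rw [pi_norm_lt_iff one_pos] at h
    exact h
  have hfin : W.Finite := by
    refine Set.Finite.of_finite_image
      (f := fun v : Fin (p + 5) → ℝ => fun l : Fin (p + 2) => decide (0 ≤ yy v l))
      (Set.toFinite _) ?_
    intro v hv v' hv' he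
    refine hsep v hv v' hv' fun l => ?_
    have h1 : decide (0 ≤ yy v l) = decide (0 ≤ yy v' l) := congrFun he l
    rw [decide_eq_decide] at h1
    have a3 := hlt v hv l
    have b3 := hlt v' hv' l
    rw [abs_lt] at a3 b3 ⊢
    rcases le_or_gt 0 (yy v l) with h | h
    · have := h1.1 h; constructor <;> linarith
    · have : yy v' l < 0 := by
        by_contra hh; push Not at hh; exact absurd (h1.2 hh) (not_le.2 h)
      constructor <;> linarith
  refine ⟨hfin, ?_⟩
  rw [finsum_mem_eq_finite_toFinset_sum _ hfin]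
  set F := hfin.toFinset with hF
  have hmem : ∀ v, v ∈ F ↔ v ∈ W := fun v => Set.Finite.mem_toFinset hfin
  have hcov : Q p = ⋃ v ∈ F, (Q p ∩ Sq v) := by
    apply Set.Subset.antisymm
    · intro a ha
      have ha' : ∀ l, -(1 / 2) ≤ a l ∧ a l < 1 / 2 := fun l => ha l (mem_univ l)
      obtain ⟨v, hvL, v0, v1, v2, hc⟩ := hsl2 i j k a ha'
      have hvW : v ∈ W := by
        refine ⟨hvL, ?_, v0, v1, v2⟩
        unfold nq
        rw [pi_norm_lt_iff one_pos]
        intro l
        rw [Real.norm_eq_abs, abs_lt]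
        obtain ⟨a1, a2⟩ := ha' l
        obtain ⟨c1, c2⟩ := hc l
        constructor <;> linarith
      rw [Set.mem_iUnion₂]
      refine ⟨v, (hmem v).2 hvW, ha, fun l _ => ?_⟩
      obtain ⟨c1, c2⟩ := hc l
      exact ⟨by linarith, by linarith⟩
    · intro x hx
      rw [Set.mem_iUnion₂] at hx
      obtain ⟨v, -, hv⟩ := hx
      exact hv.1
  have hdisj : Set.PairwiseDisjoint (F : Set (Fin (p + 5) → ℝ)) (fun v => Q p ∩ Sq v) := by
    intro v hv v' hv' hne
    rw [Function.onFun, Set.disjoint_left]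
    rintro a ⟨-, h⟩ ⟨-, g⟩
    refine hne (hsep v ((hmem v).1 hv) v' ((hmem v').1 hv') fun l => ?_)
    obtain ⟨h1, h2⟩ := h l (mem_univ l)
    obtain ⟨g1, g2⟩ := g l (mem_univ l)
    rw [abs_lt]
    constructor <;> linarith
  have hmeas : ∀ v ∈ F, MeasurableSet (Q p ∩ Sq v) := fun v _ =>
    (MeasurableSet.univ_pi fun _ => measurableSet_Ico).inter
      (MeasurableSet.univ_pi fun _ => measurableSet_Ico)
  have hv1 : volume (Q p) = ∑ v ∈ F, volume (Q p ∩ Sq v) := by
    conv_lhs => rw [hcov]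
    exact measure_biUnion_finset hdisj hmeas
  have hv2 : ∑ v ∈ F, volume (Q p ∩ Sq v) = ∑ v ∈ F, ENNReal.ofReal (mu v) :=
    Finset.sum_congr rfl fun v hv => vol_inter (hlt v ((hmem v).1 hv))
  have hnn : ∀ v ∈ F, 0 ≤ mu v := by
    intro v hv
    unfold mu
    exact Finset.prod_nonneg fun l _ => by linarith [hlt v ((hmem v).1 hv) l]
  rw [vol_Q, hv2, ← ENNReal.ofReal_sum_of_nonneg hnn] at hv1
  have := congrArg ENNReal.toReal hv1
  rw [ENNReal.toReal_ofReal (Finset.sum_nonneg hnn)] at this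
  simpa using this.symm

end Pool.Agent.K3h17.R6
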